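import Pool.Agent.helper13.RF.SpecU
import Pool.Agent.helper33.RF.TRA

/-!
# RF (MP_16912e_nt), stage 2, block B', row `rf:UTR`: identities of one point
-/

set_option autoImplicit false

namespace Pool.Agent.RF

open NumberField

theorem UTR_25 : (25 : OO) ≠ 0 := by
  intro h
  have h1 : (25 : OO).re = 25 := rfl
  have h2 : (0 : OO).re = 0 := rfl
  rw [h, h2] at h1
  exact absurd h1 (by norm_num)

theorem UTR (hWEU : WEU_stmt) : UTR_stmt := by
  intro p hp
  have hdom : IsDomain OO := hWEU.1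
  have e1 := hp.e1
  have e2 := hp.e2
  have s1 := congrArg star e1
  have s2 := congrArg star e2
  simp only [star_add, star_sub, star_mul, star_pow, star_star, TRA_phs, TRA_w2, TRA_25, TRA_star_int, TRA_2] at s1 s2 e2
  rw [TRA_w2] at e1
  have hph := TRA_ph
  have hn := TRA_norm_ne p.n hp.n1
  simp only [star_mul, star_pow, star_star, TRA_phs, TRA_25]
  refine ⟨?_, ?_, ?_⟩
  · linear_combination e2 + ph * s2 - p.X * (25 * star p.k) * hph
  · refine TRA_cancel p.n _ _ hn ?_
    linear_combination (star p.n * star p.M) * e2 + (ph * star p.X * (25 * p.k) - p.X * (star p.k * 25)) * s2 - ph * (25 * p.k) ^ 2 * s1 - (1 - ph) * (25 * star p.k) ^ 2 * e1 + (-(p.X * star p.X * (25 * p.k) * (25 * star p.k)) - 2 * (p.D : OO) * (25 * p.k) ^ 2 * (25 * star p.k) ^ 2) * hph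
  · obtain ⟨T, hT⟩ := hp.e5
    simp only [star_mul, TRA_25] at hT
    refine ⟨T, hT.symm, ?_⟩
    have hk : (25 : OO) * p.k ≠ 0 := mul_ne_zero UTR_25 hp.k0
    apply mul_left_cancel₀ hk
    rw [TRA_w2]
    linear_combination (-(p.n ^ 2)) * hT + (p.n * p.M + (ph * star p.X * (25 * p.k) - p.X * (star p.k * 25))) * e2 + (star p.k * 25) ^ 2 * e1

end Pool.Agent.RF
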